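import Pool.Agent.Helper45.U4.St3

/-!
Project U4 (MP_a1f43d_co): module GPG, a lemma on ten planes in `PG(3,4)`.
-/

set_option autoImplicit false

open Module Classical
open scoped LinearAlgebra.Projectivization

namespace Pool.Agent.Helper12.U4

open Pool.Agent.Helper45.U4 Pool.Agent.Helper53.PB

section

variable {F W : Type} [Field F] [AddCommGroup W] [Module F W] [Finite F] [Finite W]
  [FiniteDimensional F W] [Finite (Dual F W)]

private theorem geo4_1 : geo 4 1 = 1 := by norm_num [geo]
private theorem geo4_2 : geo 4 2 = 5 := by norm_num [geo, Finset.sum_range_succ]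
private theorem geo4_3 : geo 4 3 = 21 := by norm_num [geo, Finset.sum_range_succ]
private theorem geo4_4 : geo 4 4 = 85 := by norm_num [geo, Finset.sum_range_succ]

omit [Finite F] [Finite W] [Finite (Dual F W)] in
private theorem fk (h4 : finrank F W = 4) (G : ℙ F (Dual F W)) :
    finrank F (LinearMap.ker G.rep) = 3 := by
  have h1 := LinearMap.finrank_range_add_finrank_ker G.rep
  have h2 : LinearMap.range G.rep = ⊤ :=
    LinearMap.range_eq_top.2 (LinearMap.surjective G.rep_nonzero)
  rw [h2, finrank_top, finrank_self, h4] at h1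
  omega

omit [Finite F] [Finite W] [Finite (Dual F W)] in
private theorem fcut (h4 : finrank F W = 4) (G : ℙ F (Dual F W)) (S : Submodule F W)
    (h : ¬ S ≤ LinearMap.ker G.rep) :
    finrank F (S ⊓ LinearMap.ker G.rep : Submodule F W) + 1 = finrank F S := by
  have h1 := Submodule.finrank_sup_add_finrank_inf_eq S (LinearMap.ker G.rep)
  have h2 : LinearMap.ker G.rep < S ⊔ LinearMap.ker G.rep :=
    lt_of_le_of_ne le_sup_right (fun he => h (by rw [he]; exact le_sup_left))
  have h3 := Submodule.finrank_lt_finrank_of_lt h2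
  have h5 := Submodule.finrank_le (S ⊔ LinearMap.ker G.rep)
  rw [fk h4] at h1 h3
  omega

omit [Finite F] [Finite W] [Finite (Dual F W)] in
/-- planes with comparable kernels are equal -/
private theorem eq_of_ker_le (h4 : finrank F W = 4) {G G' : ℙ F (Dual F W)}
    (h : LinearMap.ker G.rep ≤ LinearMap.ker G'.rep) : G' = G := by
  apply eq_of_rep_mem_span
  have h1 := Subspace.finrank_add_finrank_dualAnnihilator_eq (LinearMap.ker G.rep)
  have h2 : Submodule.span F {G.rep} = (LinearMap.ker G.rep).dualAnnihilator := by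
    apply Submodule.eq_of_le_of_finrank_eq
    · rw [Submodule.span_singleton_le_iff_mem, Submodule.mem_dualAnnihilator]
      intro w hw
      exact hw
    · rw [finrank_span_singleton G.rep_nonzero]
      rw [fk h4, h4] at h1
      omega
  rw [h2, Submodule.mem_dualAnnihilator]
  intro w hw
  exact h hw

/-- total multiplicity of the planes containing `m` -/
private noncomputable def NN (K : ℙ F (Dual F W) → ℕ) (m : Submodule F W) : ℕ :=
  ∑ G ∈ Finset.univ.filter (fun G : ℙ F (Dual F W) => m ≤ LinearMap.ker G.rep), K G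

omit [Finite F] [Finite W] [FiniteDimensional F W] in
private theorem NN_zero (K : ℙ F (Dual F W) → ℕ) (m : Submodule F W)
    (h : ∀ G : ℙ F (Dual F W), 1 ≤ K G → ¬ m ≤ LinearMap.ker G.rep) : NN K m = 0 := by
  unfold NN
  apply Finset.sum_eq_zero
  intro G hG
  rw [Finset.mem_filter] at hG
  by_contra h0
  exact h G (Nat.one_le_iff_ne_zero.2 h0) hG.2

private theorem dc (hF : Nat.card F = 4) (h4 : finrank F W = 4) (K : ℙ F (Dual F W) → ℕ)
    (hK : ∑ G, K G = 10) (m : Submodule F W) (hm : finrank F m = 2) :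
    ∑ x ∈ pts m, hs K x.rep = 10 + 4 * NN K m := by
  unfold hs NN
  simp only [Finset.sum_filter]
  rw [Finset.sum_comm]
  have key : ∀ G : ℙ F (Dual F W), ∑ x ∈ pts m, (if G.rep x.rep = 0 then K G else 0) =
      K G + 4 * (if m ≤ LinearMap.ker G.rep then K G else 0) := by
    intro G
    rw [← Finset.sum_filter, Finset.sum_const, smul_eq_mul]
    have e1 : (pts m).filter (fun x => G.rep x.rep = 0) = pts (m ⊓ LinearMap.ker G.rep) := by
      ext x
      rw [Finset.mem_filter, mem_pts, mem_pts, Submodule.mem_inf, LinearMap.mem_ker]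
    rw [e1, card_pts, hF]
    by_cases h : m ≤ LinearMap.ker G.rep
    · rw [if_pos h, inf_eq_left.2 h, hm, geo4_2]; ring
    · have h1 := fcut h4 G m h
      rw [hm] at h1
      have h2 : finrank F (m ⊓ LinearMap.ker G.rep : Submodule F W) = 1 := by omega
      rw [if_neg h, h2, geo4_1]; ring
  rw [Finset.sum_congr rfl (fun G _ => key G), Finset.sum_add_distrib, hK, ← Finset.mul_sum]

/-- (a) -/
private theorem all_two (hF : Nat.card F = 4) (h4 : finrank F W = 4) (K : ℙ F (Dual F W) → ℕ)
    (hK : ∑ G, K G = 10) (m : Submodule F W) (hm : finrank F m = 2) (hN : NN K m = 0)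
    (h2 : ∀ x ∈ pts m, 2 ≤ hs K x.rep) : ∀ x ∈ pts m, hs K x.rep = 2 := by
  have h1 := dc hF h4 K hK m hm
  rw [hN, mul_zero, add_zero] at h1
  have hc : (pts m).card = 5 := by rw [card_pts, hF, hm, geo4_2]
  have h3 : ∑ x ∈ pts m, 2 = 10 := by rw [Finset.sum_const, hc]; rfl
  intro x hx
  have h4' := (Finset.sum_eq_sum_iff_of_le (fun x hx => h2 x hx)).1 (h3.trans h1.symm) x hx
  exact h4'.symm

omit [Finite F] [Finite W] [FiniteDimensional F W] in
private theorem le_hs (K : ℙ F (Dual F W) → ℕ) (x : W) (S : Finset (ℙ F (Dual F W)))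
    (hS : ∀ G ∈ S, G.rep x = 0 ∧ 1 ≤ K G) : S.card ≤ hs K x := by
  unfold hs
  calc S.card = ∑ G ∈ S, 1 := by simp
    _ ≤ ∑ G ∈ S, K G := Finset.sum_le_sum fun G hG => (hS G hG).2
    _ ≤ _ := Finset.sum_le_sum_of_subset (fun G hG => by
        rw [Finset.mem_filter]; exact ⟨Finset.mem_univ _, (hS G hG).1⟩)

omit [Finite W] in
private theorem card_on (hF : Nat.card F = 4) (h4 : finrank F W = 4) (S : Submodule F W)
    (k : ℕ) (hk : finrank F S + k = 4) :
    (Finset.univ.filter (fun G : ℙ F (Dual F W) => S ≤ LinearMap.ker G.rep)).card = geo 4 k := by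
  have e1 : Finset.univ.filter (fun G : ℙ F (Dual F W) => S ≤ LinearMap.ker G.rep) =
      pts S.dualAnnihilator := by
    ext G
    rw [Finset.mem_filter, mem_pts, Submodule.mem_dualAnnihilator]
    constructor
    · rintro ⟨-, h⟩ w hw; exact h hw
    · intro h; exact ⟨Finset.mem_univ _, fun w hw => h w hw⟩
  have h1 := Subspace.finrank_add_finrank_dualAnnihilator_eq S
  rw [e1, card_pts, hF]
  congr 1
  omega

/-- (b) -/
private theorem ge_five (hF : Nat.card F = 4) (h4 : finrank F W = 4) (K : ℙ F (Dual F W) → ℕ)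
    (z : ℙ F W) (hK : ∑ G, K G = 10) (h2 : ∀ x : ℙ F W, x ≠ z → 2 ≤ hs K x.rep)
    (x : ℙ F W) (hx : x ≠ z) (h3 : 3 ≤ hs K x.rep) : 5 ≤ hs K x.rep := by
  -- lines on `x` not on `z`
  have hline : ∀ m : Submodule F W, finrank F m = 2 → x.rep ∈ m → z.rep ∉ m → NN K m ≠ 0 := by
    intro m hm hxm hzm hN
    have := all_two hF h4 K hK m hm hN (fun y hy => h2 y (by
      rintro rfl; exact hzm (mem_pts.1 hy))) x (mem_pts.2 hxm)
    omega
  set A := Finset.univ.filter (fun G : ℙ F (Dual F W) => G.rep x.rep = 0 ∧ G.rep z.rep ≠ 0)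
    with hA
  have hAc : A.card = 16 := by
    have e1 : (Finset.univ.filter (fun G : ℙ F (Dual F W) =>
        Submodule.span F {x.rep} ≤ LinearMap.ker G.rep)).card = 21 := by
      rw [card_on hF h4 _ 3 (by rw [finrank_span_singleton x.rep_nonzero]), geo4_3]
    have e2 : (Finset.univ.filter (fun G : ℙ F (Dual F W) =>
        line x z ≤ LinearMap.ker G.rep)).card = 5 := by
      rw [card_on hF h4 _ 2 (by rw [finrank_line hx]), geo4_2]
    have e3 : Finset.univ.filter (fun G : ℙ F (Dual F W) =>
        Submodule.span F {x.rep} ≤ LinearMap.ker G.rep) =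
        A ∪ Finset.univ.filter (fun G : ℙ F (Dual F W) => line x z ≤ LinearMap.ker G.rep) := by
      ext G
      simp only [hA, Finset.mem_union, Finset.mem_filter, Finset.mem_univ, true_and,
        Submodule.span_singleton_le_iff_mem, LinearMap.mem_ker, line, sup_le_iff]
      tauto
    have e4 : Disjoint A (Finset.univ.filter (fun G : ℙ F (Dual F W) =>
        line x z ≤ LinearMap.ker G.rep)) := by
      rw [Finset.disjoint_left]
      intro G hG hG'
      simp only [hA, Finset.mem_filter, Finset.mem_univ, true_and,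
        Submodule.span_singleton_le_iff_mem, LinearMap.mem_ker, line, sup_le_iff] at hG hG'
      exact hG.2 hG'.2
    rw [e3, Finset.card_union_of_disjoint e4, e2] at e1
    omega
  by_cases hall : ∀ G ∈ A, 1 ≤ K G
  · have := le_hs K x.rep A (fun G hG => ⟨by
      simp only [hA, Finset.mem_filter] at hG; exact hG.2.1, hall G hG⟩)
    omega
  · push Not at hall
    obtain ⟨G0, hG0, hK0⟩ := hall
    simp only [hA, Finset.mem_filter, Finset.mem_univ, true_and] at hG0
    have hK0' : K G0 = 0 := by omega
    set S := Finset.univ.filter (fun G : ℙ F (Dual F W) => G.rep x.rep = 0 ∧ 1 ≤ K G) with hS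
    by_contra hlt
    have hSc : S.card ≤ 4 := by
      have := le_hs K x.rep S (fun G hG => by simpa [hS] using hG)
      omega
    have hSne : S.Nonempty := by
      by_contra hne
      rw [Finset.not_nonempty_iff_eq_empty] at hne
      have : hs K x.rep = 0 := by
        unfold hs
        apply Finset.sum_eq_zero
        intro G hG
        rw [Finset.mem_filter] at hG
        by_contra h0
        have : G ∈ S := by
          rw [hS, Finset.mem_filter]
          exact ⟨Finset.mem_univ _, hG.2, Nat.one_le_iff_ne_zero.2 h0⟩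
        rw [hne] at this
        simp at this
      omega
    -- a point of the plane `G0` on none of the planes in `S`
    have hU : (S.biUnion fun G => pts (LinearMap.ker G0.rep ⊓ LinearMap.ker G.rep)).card ≤ 20 := by
      refine (Finset.card_biUnion_le).trans ?_
      calc ∑ G ∈ S, (pts (LinearMap.ker G0.rep ⊓ LinearMap.ker G.rep)).card
          ≤ ∑ G ∈ S, 5 := by
            apply Finset.sum_le_sum
            intro G hG
            have hne : ¬ LinearMap.ker G0.rep ≤ LinearMap.ker G.rep := by
              intro hle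
              have := eq_of_ker_le h4 hle
              rw [this] at hG
              rw [hS, Finset.mem_filter] at hG
              omega
            have h5 := fcut h4 G _ hne
            rw [fk h4] at h5
            rw [card_pts, hF, show finrank F (LinearMap.ker G0.rep ⊓ LinearMap.ker G.rep :
              Submodule F W) = 2 by omega, geo4_2]
        _ = S.card * 5 := by rw [Finset.sum_const, smul_eq_mul]
        _ ≤ 20 := by omega
    have hP : (pts (LinearMap.ker G0.rep)).card = 21 := by rw [card_pts, hF, fk h4, geo4_3]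
    obtain ⟨y, hy, hyn⟩ : ∃ y ∈ pts (LinearMap.ker G0.rep),
        y ∉ S.biUnion fun G => pts (LinearMap.ker G0.rep ⊓ LinearMap.ker G.rep) := by
      by_contra hcon
      push Not at hcon
      have := Finset.card_le_card (fun y hy => hcon y hy)
      omega
    rw [mem_pts] at hy
    have hyS : ∀ G ∈ S, G.rep y.rep ≠ 0 := by
      intro G hG h0
      apply hyn
      rw [Finset.mem_biUnion]
      exact ⟨G, hG, mem_pts.2 ⟨hy, h0⟩⟩
    have hyx : x ≠ y := by
      rintro rfl
      obtain ⟨G, hG⟩ := hSne
      apply hyS G hG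
      rw [hS, Finset.mem_filter] at hG
      exact hG.2.1
    have hm0 : line x y ≤ LinearMap.ker G0.rep := line_le hG0.1 hy
    apply hline (line x y) (finrank_line hyx) (left_mem_line _ _) (fun hz => hG0.2 (hm0 hz))
    apply NN_zero
    intro G hG hle
    have hx0 : G.rep x.rep = 0 := hle (left_mem_line _ _)
    have hy0 : G.rep y.rep = 0 := hle (right_mem_line _ _)
    exact hyS G (by rw [hS, Finset.mem_filter]; exact ⟨Finset.mem_univ _, hx0, hG⟩) hy0

/-- (c) -/
private theorem z_two (hF : Nat.card F = 4) (h4 : finrank F W = 4) (K : ℙ F (Dual F W) → ℕ)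
    (z : ℙ F W) (hK : ∑ G, K G = 10) (h2 : ∀ x : ℙ F W, x ≠ z → 2 ≤ hs K x.rep)
    (h5 : ∀ x : ℙ F W, x ≠ z → hs K x.rep ≠ 3 ∧ hs K x.rep ≠ 4) : 2 ≤ hs K z.rep := by
  by_contra hlt
  set S := Finset.univ.filter (fun G : ℙ F (Dual F W) => G.rep z.rep = 0 ∧ 1 ≤ K G) with hS
  have hSc : S.card ≤ 1 := by
    have := le_hs K z.rep S (fun G hG => by simpa [hS] using hG)
    omega
  have hU : (insert z (S.biUnion fun G => pts (LinearMap.ker G.rep))).card ≤ 22 := by
    refine (Finset.card_insert_le _ _).trans ?_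
    have h1 : (S.biUnion fun G => pts (LinearMap.ker G.rep)).card ≤ 21 := by
      refine (Finset.card_biUnion_le).trans ?_
      calc ∑ G ∈ S, (pts (LinearMap.ker G.rep)).card = ∑ G ∈ S, 21 := by
            apply Finset.sum_congr rfl
            intro G _
            rw [card_pts, hF, fk h4, geo4_3]
        _ = S.card * 21 := by rw [Finset.sum_const, smul_eq_mul]
        _ ≤ 21 := by omega
    omega
  have hP : (pts (⊤ : Submodule F W)).card = 85 := by
    rw [card_pts, hF, finrank_top, h4, geo4_4]
  obtain ⟨y, -, hyn⟩ : ∃ y ∈ pts (⊤ : Submodule F W),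
      y ∉ insert z (S.biUnion fun G => pts (LinearMap.ker G.rep)) := by
    by_contra hcon
    push Not at hcon
    have := Finset.card_le_card (fun y hy => hcon y hy)
    omega
  rw [Finset.mem_insert, not_or] at hyn
  have hyz : z ≠ y := fun h => hyn.1 h.symm
  have hN : NN K (line z y) = 0 := by
    apply NN_zero
    intro G hG hle
    have hz0 : G.rep z.rep = 0 := hle (left_mem_line _ _)
    have hy0 : G.rep y.rep = 0 := hle (right_mem_line _ _)
    apply hyn.2
    rw [Finset.mem_biUnion]
    exact ⟨G, by rw [hS, Finset.mem_filter]; exact ⟨Finset.mem_univ _, hz0, hG⟩, mem_pts.2 hy0⟩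
  have h1 := dc hF h4 K hK (line z y) (finrank_line hyz)
  rw [hN, mul_zero, add_zero] at h1
  have hc : (pts (line z y)).card = 5 := by rw [card_pts, hF, finrank_line hyz, geo4_2]
  have hz : z ∈ pts (line z y) := mem_pts.2 (left_mem_line _ _)
  rw [← Finset.add_sum_erase _ _ hz] at h1
  have hc' : ((pts (line z y)).erase z).card = 4 := by rw [Finset.card_erase_of_mem hz, hc]
  have hv : ∀ x ∈ (pts (line z y)).erase z, 2 ≤ hs K x.rep :=
    fun x hx => h2 x (Finset.ne_of_mem_erase hx)
  by_cases hall : ∀ x ∈ (pts (line z y)).erase z, hs K x.rep = 2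
  · rw [Finset.sum_congr rfl hall, Finset.sum_const, hc', smul_eq_mul] at h1
    omega
  · push Not at hall
    obtain ⟨x, hx, hx2⟩ := hall
    rw [← Finset.add_sum_erase _ _ hx] at h1
    have hc'' : (((pts (line z y)).erase z).erase x).card = 3 := by
      rw [Finset.card_erase_of_mem hx, hc']
    have hsum : ∑ w ∈ ((pts (line z y)).erase z).erase x, 2 ≤
        ∑ w ∈ ((pts (line z y)).erase z).erase x, hs K w.rep :=
      Finset.sum_le_sum fun w hw => hv w (Finset.mem_of_mem_erase hw)
    rw [Finset.sum_const, hc'', smul_eq_mul] at hsum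
    have ha := hv x hx
    have hb := h5 x (Finset.ne_of_mem_erase hx)
    omega

/-- (d) -/
private theorem last (hF : Nat.card F = 4) (h4 : finrank F W = 4) (K : ℙ F (Dual F W) → ℕ)
    (z : ℙ F W) (hK : ∑ G, K G = 10) (h2 : ∀ x : ℙ F W, x ≠ z → 2 ≤ hs K x.rep)
    (G : ℙ F (Dual F W)) (hG : 1 ≤ K G) :
    ∃ x : ℙ F W, x ≠ z ∧ G.rep x.rep = 0 ∧ hs K x.rep = 2 := by
  set S := Finset.univ.filter (fun G : ℙ F (Dual F W) => 1 ≤ K G) with hS
  have hSc : S.card ≤ 10 := by
    calc S.card = ∑ G ∈ S, 1 := by simp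
      _ ≤ ∑ G ∈ S, K G := Finset.sum_le_sum fun G hG => by
          rw [hS, Finset.mem_filter] at hG; exact hG.2
      _ ≤ ∑ G, K G := Finset.sum_le_sum_of_subset (Finset.subset_univ _)
      _ = 10 := hK
  have hGS : G ∈ S := by rw [hS, Finset.mem_filter]; exact ⟨Finset.mem_univ _, hG⟩
  have hD : finrank F (Dual F W) = 4 := by rw [Subspace.dual_finrank_eq, h4]
  have hP : (pts (⊤ : Submodule F (Dual F W))).card = 85 := by
    rw [card_pts, hF, finrank_top, hD, geo4_4]
  have hz21 : (Finset.univ.filter (fun G : ℙ F (Dual F W) =>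
      Submodule.span F {z.rep} ≤ LinearMap.ker G.rep)).card = 21 := by
    rw [card_on hF h4 _ 3 (by rw [finrank_span_singleton z.rep_nonzero]), geo4_3]
  -- the plane `A`
  obtain ⟨A, -, hA⟩ : ∃ A ∈ pts (⊤ : Submodule F (Dual F W)),
      A ∉ S ∪ Finset.univ.filter (fun G : ℙ F (Dual F W) =>
        Submodule.span F {z.rep} ≤ LinearMap.ker G.rep) := by
    by_contra hcon
    push Not at hcon
    have h1 := Finset.card_le_card (fun y hy => hcon y hy)
    have h3 := Finset.card_union_le S (Finset.univ.filter (fun G : ℙ F (Dual F W) =>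
        Submodule.span F {z.rep} ≤ LinearMap.ker G.rep))
    omega
  rw [Finset.mem_union, not_or] at hA
  have hAz : A.rep z.rep ≠ 0 := by
    intro h0
    apply hA.2
    rw [Finset.mem_filter, Submodule.span_singleton_le_iff_mem]
    exact ⟨Finset.mem_univ _, h0⟩
  -- the second plane
  obtain ⟨B, -, hB⟩ : ∃ B ∈ pts (⊤ : Submodule F (Dual F W)),
      B ∉ S.biUnion fun G => pts (line A G) := by
    by_contra hcon
    push Not at hcon
    have h1 := Finset.card_le_card (fun y hy => hcon y hy)
    have h3 : (S.biUnion fun G => pts (line A G)).card ≤ 50 := by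
      refine (Finset.card_biUnion_le).trans ?_
      calc ∑ G ∈ S, (pts (line A G)).card = ∑ G ∈ S, 5 := by
            apply Finset.sum_congr rfl
            intro G hG
            have hne : A ≠ G := by rintro rfl; exact hA.1 hG
            rw [card_pts, hF, finrank_line hne, geo4_2]
        _ = S.card * 5 := by rw [Finset.sum_const, smul_eq_mul]
        _ ≤ 50 := by omega
    omega
  have hB' : ∀ G ∈ S, B.rep ∉ line A G := by
    intro G hG h0
    apply hB
    rw [Finset.mem_biUnion]
    exact ⟨G, hG, mem_pts.2 h0⟩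
  have hAB : A ≠ B := by
    rintro rfl
    exact hB' G hGS (left_mem_line _ _)
  have hm : finrank F (LinearMap.ker A.rep ⊓ LinearMap.ker B.rep : Submodule F W) = 2 := by
    have h1 := fcut h4 B (LinearMap.ker A.rep) (fun hle => hAB (eq_of_ker_le h4 hle).symm)
    rw [fk h4] at h1
    omega
  set m : Submodule F W := LinearMap.ker A.rep ⊓ LinearMap.ker B.rep with hmdef
  have hann : line A B = m.dualAnnihilator := by
    apply Submodule.eq_of_le_of_finrank_eq
    · apply line_le
      · rw [Submodule.mem_dualAnnihilator]; intro w hw; exact hw.1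
      · rw [Submodule.mem_dualAnnihilator]; intro w hw; exact hw.2
    · have h1 := Subspace.finrank_add_finrank_dualAnnihilator_eq m
      rw [finrank_line hAB]
      omega
  have hN : NN K m = 0 := by
    apply NN_zero
    intro G' hG' hle
    have hG'S : G' ∈ S := by rw [hS, Finset.mem_filter]; exact ⟨Finset.mem_univ _, hG'⟩
    have hne : G' ≠ A := by rintro rfl; exact hA.1 hG'S
    have h1 : G'.rep ∈ line A B := by
      rw [hann, Submodule.mem_dualAnnihilator]
      intro w hw; exact hle hw
    have h3 := line_eq hAB h1 hne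
    apply hB' G' hG'S
    rw [h3]
    exact right_mem_line _ _
  have hzm : z.rep ∉ m := fun h => hAz h.1
  have hall := all_two hF h4 K hK m hm hN (fun y hy => h2 y (by
      rintro rfl; exact hzm (mem_pts.1 hy)))
  -- a point of `m` on `G`
  have hpos : 1 ≤ finrank F (m ⊓ LinearMap.ker G.rep : Submodule F W) := by
    by_cases hle : m ≤ LinearMap.ker G.rep
    · rw [inf_eq_left.2 hle, hm]; norm_num
    · have := fcut h4 G m hle
      omega
  have hne : m ⊓ LinearMap.ker G.rep ≠ ⊥ := by
    intro h0
    rw [h0, finrank_bot] at hpos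
    omega
  obtain ⟨w, hw, hw0⟩ := Submodule.exists_mem_ne_zero_of_ne_bot hne
  have hwm : (Projectivization.mk F w hw0).rep ∈ m ⊓ LinearMap.ker G.rep := (rep_mk_mem hw0).2 hw
  refine ⟨Projectivization.mk F w hw0, ?_, hwm.2, hall _ (mem_pts.2 hwm.1)⟩
  intro h
  rw [h] at hwm
  exact hzm hwm.1

end

/-- GPG: a lemma on ten planes in `PG(3,4)` -/
theorem hGPG : StGPG := by
  intro F W _ _ _ _ _ _ _ K z hF h4 hK h2
  have h5 : ∀ x : ℙ F W, x ≠ z → hs K x.rep ≠ 3 ∧ hs K x.rep ≠ 4 := by
    intro x hx
    constructor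
    · intro h
      have := ge_five hF h4 K z hK h2 x hx (by omega)
      omega
    · intro h
      have := ge_five hF h4 K z hK h2 x hx (by omega)
      omega
  exact ⟨h5, z_two hF h4 K z hK h2 h5, fun G hG => last hF h4 K z hK h2 G hG⟩

end Pool.Agent.Helper12.U4
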